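import Pool.Agent.Run7.h565.Main3

/-!
# A lower bound for the root separation exponent of irreducible polynomials

For every `n ≥ 3`, `e^*(n) ≥ (2 n - 1) / 3`.

Here `e^*(n)` is `Run7.h565.eStar n`, defined in `Pool/Agent/Run7/h565/Defs.lean`.
-/

set_option autoImplicit false

namespace Pool.Agent.Results.MP_625f41_nt.IrreducibleLower

/-- For every `n ≥ 3` the exponent `e^*(n)` of root separation of irreducible integer polynomials
of degree `n` is at least `(2 n - 1) / 3`. -/
theorem result : ∀ n : ℕ, 3 ≤ n →
    (((2 * (n : ℝ) - 1) / 3 : ℝ) : EReal) ≤ Run7.h565.eStar n :=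
  fun n hn => Run7.h565.main3 n hn

end Pool.Agent.Results.MP_625f41_nt.IrreducibleLower
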