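import Pool.Agent.Run7.h565.Main2

/-!
# A lower bound for the root separation exponent of monic irreducible polynomials of odd degree

For every odd `n ≥ 3`, `e_0^*(n) ≥ (2 n - 2) / 3`.

Here `e_0^*(n)` is `Run7.h565.eZeroStar n`, defined in `Pool/Agent/Run7/h565/Defs.lean`.
-/

set_option autoImplicit false

namespace Pool.Agent.Results.MP_625f41_nt.MonicIrreducibleLower

/-- For every odd `n ≥ 3` the exponent `e_0^*(n)` of root separation of monic irreducible integer
polynomials of degree `n` is at least `(2 n - 2) / 3`. -/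
theorem result : ∀ n : ℕ, 3 ≤ n → Odd n →
    (((2 * (n : ℝ) - 2) / 3 : ℝ) : EReal) ≤ Run7.h565.eZeroStar n :=
  fun n hn hodd => Run7.h565.main2 n hn hodd

end Pool.Agent.Results.MP_625f41_nt.MonicIrreducibleLower
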