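import Pool.Agent.Run7.h565.Quart

/-!
# A lower bound for the root separation exponent of quartic polynomials

`e(4) ≥ 5 / 2`. Here `e(n)` is `Run7.h565.e n`, defined in `Pool/Agent/Run7/h565/Defs.lean`.
-/

set_option autoImplicit false

namespace Pool.Agent.Results.MP_625f41_nt.QuarticLower

/-- The exponent `e(4)` of root separation of separable integer polynomials of degree `4` is at
least `5 / 2`. -/
theorem result : ((5 / 2 : ℝ) : EReal) ≤ Run7.h565.e 4 :=
  Run7.h565.main_quart

end Pool.Agent.Results.MP_625f41_nt.QuarticLower
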